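import Mathlib
import Pool.Agent.MP_a43263_nt.VV.Face

/-! THEOREM V: from the sieve and the descent to the main statement. -/

set_option autoImplicit false

noncomputable section

namespace Pool.Agent.MP_a43263_nt.V99

open Polynomial Finset Filter VV
open JC (fK)
open Pool.Agent.MP_a43263_nt.UV (zK)

namespace FinA

theorem box_fin (n H : ℕ) : {c : Fin n → ℤ | ∀ i, |c i| ≤ H} =
    (Fintype.piFinset fun _ : Fin n => Icc (-H : ℤ) H : Finset _) := by
  ext c
  simp only [Set.mem_ofPred_eq, abs_le, mem_coe, Fintype.mem_piFinset, mem_Icc]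

theorem box_card (n H : ℕ) : {c : Fin n → ℤ | ∀ i, |c i| ≤ H}.ncard = (2 * H + 1) ^ n := by
  rw [box_fin, Set.ncard_coe_finset, Fintype.card_piFinset, prod_const, Int.card_Icc, card_univ,
    Fintype.card_fin]
  congr 1
  omega

theorem fm_smul {n : ℕ} (d : ℕ) (c : Fin n → ℤ) :
    fm (fun i => (((d * c i : ℤ)) : ℚ)) = C (d : ℚ) * zK (fm c) ℚ := by
  simp [fm, zK, Polynomial.map_sum, mul_sum, mul_assoc]

theorem good {g : ℕ} (hd : DESCStmt) {f : ℤ[X]} (h : Fam g f) {d : ℚ} (d0 : 0 < d)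
    (h1 : SelT (C d * zK f ℚ)) (h2 : OdP (C d * zK f ℚ)) : Good g (C d * zK f ℚ) := by
  refine hd g _ h.pos ?_ ?_ (fun x => ?_) h2 h1
  · rw [natDegree_C_mul d0.ne', zK, natDegree_map_eq_of_injective (RingHom.injective_int _), h.deg]
  · exact (irreducible_isUnit_mul (isUnit_C.2 d0.ne'.isUnit)).2 h.irr
  · have := h.neg x
    simp only [fK, Polynomial.map_mul, map_C, eval_mul, eval_C] at this ⊢
    exact mul_neg_of_pos_of_neg (by simpa using d0) this

end FinA

open FinA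

theorem fin (hs : SIEVEStmt) (hd : DESCStmt) : MainStmt := by
  intro g hg
  obtain ⟨Q, ε, e0, hQ, hH⟩ := hs g hg
  set N := ∏ q ∈ Q, q with hN
  have N0 : 0 < N := prod_pos hQ
  refine ⟨ε / (2 ^ Q.card * (6 * N) ^ (2 * g + 3)), by positivity, ?_⟩
  have t : Tendsto (fun H : ℕ => H / N) atTop atTop := Nat.tendsto_div_const_atTop N0.ne'
  filter_upwards [t.eventually hH, eventually_ge_atTop N] with H h1 h2
  set B := {c : Fin (2 * g + 3) → ℤ | (∀ i, |c i| ≤ H) ∧ Good g (fm fun i => (c i : ℚ))} with hB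
  have fB : B.Finite := (box_fin _ H ▸ Finset.finite_toSet _ :
    {c : Fin (2 * g + 3) → ℤ | ∀ i, |c i| ≤ H}.Finite).subset fun c hc => hc.1
  have key := Set.ncard_le_ncard_of_injOn (s := {c : Fin (2 * g + 3) → ℤ |
      (∀ i, |c i| ≤ (H / N : ℕ)) ∧ Fam g (fm c) ∧ ∃ S ⊆ Q,
      SelT (C (∏ q ∈ S, (q : ℚ)) * zK (fm c) ℚ) ∧ OdP (C (∏ q ∈ S, (q : ℚ)) * zK (fm c) ℚ)})
    (t := (Q.powerset : Set (Finset ℕ)) ×ˢ B)
    (fun c => open Classical in if h : ∃ S ⊆ Q, SelT (C (∏ q ∈ S, (q : ℚ)) * zK (fm c) ℚ) ∧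
      OdP (C (∏ q ∈ S, (q : ℚ)) * zK (fm c) ℚ) then
        (h.choose, fun i => (∏ q ∈ h.choose, q : ℕ) * c i) else (∅, c))
    (fun c hc => by
      obtain ⟨a, b, h⟩ := hc
      obtain ⟨s1, s2, s3⟩ := h.choose_spec
      simp only [dif_pos h]
      refine ⟨mem_coe.2 (mem_powerset.2 s1), fun i => ?_, ?_⟩
      · have : ∏ q ∈ h.choose, q ≤ N := prod_le_prod_of_subset_of_one_le' s1 fun q hq _ => hQ q hq
        have k := Nat.mul_div_le H N
        rw [abs_mul, Nat.abs_cast]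
        calc _ ≤ (N : ℤ) * (H / N : ℕ) :=
              mul_le_mul (by exact_mod_cast this) (a i) (abs_nonneg _) (by positivity)
          _ ≤ H := by exact_mod_cast k
      · rw [fm_smul, Nat.cast_prod]
        exact good hd b (prod_pos fun q hq => by exact_mod_cast hQ q (s1 hq)) s2 s3)
    (fun c hc c' hc' e => by
      simp only [dif_pos hc.2.2, dif_pos hc'.2.2, Prod.mk.injEq] at e
      funext i
      have := congrFun e.2 i
      rw [← e.1] at this
      have k : 0 < ∏ q ∈ hc.2.2.choose, q := prod_pos fun q hq => hQ q (hc.2.2.choose_spec.1 hq)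
      exact mul_left_cancel₀ (by exact_mod_cast k.ne') this)
    ((Finset.finite_toSet _).prod fB)
  rw [Set.ncard_prod, Set.ncard_coe_finset, card_powerset] at key
  have k2 : ε * ((H / N : ℕ) : ℝ) ^ (2 * g + 3) ≤ 2 ^ Q.card * B.ncard :=
    h1.trans (by exact_mod_cast key)
  have k3 : 2 * H + 1 ≤ 6 * N * (H / N) := by
    have a := Nat.div_add_mod H N
    have b := Nat.mod_lt H N0
    have c : N * 1 ≤ N * (H / N) := Nat.mul_le_mul_left _ (Nat.div_pos h2 N0)
    rw [mul_assoc]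
    omega
  rw [box_card, div_mul_eq_mul_div, div_le_iff₀ (by positivity)]
  calc ε * ((2 * H + 1) ^ (2 * g + 3) : ℕ)
      ≤ ε * ((6 * N) ^ (2 * g + 3) * ((H / N : ℕ) : ℝ) ^ (2 * g + 3)) := by
        rw [← mul_pow]
        gcongr
        exact_mod_cast Nat.pow_le_pow_left k3 _
    _ = (6 * N) ^ (2 * g + 3) * (ε * ((H / N : ℕ) : ℝ) ^ (2 * g + 3)) := by ring
    _ ≤ (6 * N) ^ (2 * g + 3) * (2 ^ Q.card * B.ncard) := by gcongr
    _ = _ := by ring

end Pool.Agent.MP_a43263_nt.V99
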